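import Pool.Agent.X187.AR.Fin

/-!
# Openness of the multiplication does not pass to the bidual

There is a (real, and a complex) Banach algebra `A` whose multiplication is uniformly open (hence
open and weakly open), while the bidual `A**` with the first Arens product, and also with the
second Arens product, does not even have weakly open multiplication. So the answer to the question
is negative for all six choices of (property, Arens product).

In the proof `A` is the algebra of all bounded operators `T` on `ℓ²` with `‖T q_n‖ → 0` and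
`‖q_n T‖ → 0`, where `q_n = S^n S*^n` and `S` is the unilateral shift (the compact operators). Both
Arens products are mapped by a bounded homomorphism onto `B(ℓ²)`, and products of operators near
`S` and `S*` are never invertible but always limits of invertible operators.
-/

set_option autoImplicit false

open Metric

namespace Pool.Agent.Results.MP_5068ad_an.ArensNotOpen

/-- The product `mul` on `B` is open. -/
def IsOpenMul {B : Type} [NormedAddCommGroup B] (mul : B → B → B) : Prop :=
  ∀ x y : B, ∀ ε > 0, ∃ δ > 0, ball (mul x y) δ ⊆ Set.image2 mul (ball x ε) (ball y ε)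

/-- The product `mul` on `B` is uniformly open. -/
def IsUniformlyOpenMul {B : Type} [NormedAddCommGroup B] (mul : B → B → B) : Prop :=
  ∀ ε > 0, ∃ δ > 0, ∀ x y : B, ball (mul x y) δ ⊆ Set.image2 mul (ball x ε) (ball y ε)

/-- The product `mul` on `B` is weakly open. -/
def IsWeaklyOpenMul {B : Type} [NormedAddCommGroup B] (mul : B → B → B) : Prop :=
  ∀ W : Set (B × B), IsOpen W → W.Nonempty → (interior ((fun p => mul p.1 p.2) '' W)).Nonempty

/-- The product `mul` has all three properties. -/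
def AllThree {B : Type} [NormedAddCommGroup B] (mul : B → B → B) : Prop :=
  IsUniformlyOpenMul mul ∧ IsOpenMul mul ∧ IsWeaklyOpenMul mul

/-- The product `mul` has none of the three properties. -/
def NoneOfThree {B : Type} [NormedAddCommGroup B] (mul : B → B → B) : Prop :=
  ¬ IsUniformlyOpenMul mul ∧ ¬ IsOpenMul mul ∧ ¬ IsWeaklyOpenMul mul

section

variable {𝕜 : Type} [RCLike 𝕜] {A : Type} [NormedAddCommGroup A] [NormedSpace 𝕜 A]

variable (𝕜) in
/-- `mul` is a Banach algebra multiplication on `A` over `𝕜`. -/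
structure IsAlgebraMul (mul : A → A → A) : Prop where
  add_left : ∀ a b c, mul (a + b) c = mul a c + mul b c
  add_right : ∀ a b c, mul a (b + c) = mul a b + mul a c
  smul_left : ∀ (t : 𝕜) (a b : A), mul (t • a) b = t • mul a b
  smul_right : ∀ (t : 𝕜) (a b : A), mul a (t • b) = t • mul a b
  assoc : ∀ a b c, mul (mul a b) c = mul a (mul b c)
  norm_le : ∀ a b, ‖mul a b‖ ≤ ‖a‖ * ‖b‖

variable (𝕜 A) in
/-- The dual `A*`. -/
abbrev D1 : Type := A →L[𝕜] 𝕜

variable (𝕜 A) in
/-- The bidual `A**`. -/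
abbrev D2 : Type := D1 𝕜 A →L[𝕜] 𝕜

/-- `P` is the first Arens product on `A**`: there are `f · a` and `G · f` in `A*` with
`(f · a)(b) = f (a b)`, `(G · f)(a) = G (f · a)` and `P(F, G)(f) = F (G · f)`. -/
def IsFirstArens (mul : A → A → A) (P : D2 𝕜 A → D2 𝕜 A → D2 𝕜 A) : Prop :=
  ∃ (fa : D1 𝕜 A → A → D1 𝕜 A) (Gf : D2 𝕜 A → D1 𝕜 A → D1 𝕜 A),
    (∀ f a b, fa f a b = f (mul a b)) ∧ (∀ G f a, Gf G f a = G (fa f a)) ∧
      ∀ F G f, P F G f = F (Gf G f)

/-- `Q` is the second Arens product on `A**`: there are `a · f` and `f · F` in `A*` with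
`(a · f)(b) = f (b a)`, `(f · F)(a) = F (a · f)` and `Q(F, G)(f) = G (f · F)`. -/
def IsSecondArens (mul : A → A → A) (Q : D2 𝕜 A → D2 𝕜 A → D2 𝕜 A) : Prop :=
  ∃ (af : A → D1 𝕜 A → D1 𝕜 A) (fF : D1 𝕜 A → D2 𝕜 A → D1 𝕜 A),
    (∀ a f b, af a f b = f (mul b a)) ∧ (∀ f F a, fF f F a = F (af a f)) ∧
      ∀ F G f, Q F G f = G (fF f F)

end

/-- The negative answer to all six questions, over `ℝ` and over `ℂ`. -/
theorem result (𝕜 : Type) [RCLike 𝕜] :
    ∃ (A : Type) (_ : NormedAddCommGroup A) (_ : NormedSpace 𝕜 A) (mul : A → A → A)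
      (P Q : D2 𝕜 A → D2 𝕜 A → D2 𝕜 A),
      CompleteSpace A ∧ IsAlgebraMul 𝕜 mul ∧ IsFirstArens mul P ∧ IsSecondArens mul Q ∧
        AllThree mul ∧ NoneOfThree P ∧ NoneOfThree Q := by
  obtain ⟨A, i1, i2, i3, i4, hc, hu, h1, h2⟩ := X187.AR.main 𝕜
  refine ⟨A, inferInstance, inferInstance, fun a b => a * b, fun F G => X187.AR.arens₁ F G,
    fun F G => X187.AR.arens₂ F G, hc,
    ⟨add_mul, mul_add, fun t a b => smul_mul_assoc t a b, fun t a b => mul_smul_comm t a b,
      mul_assoc, norm_mul_le⟩,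
    ⟨fun f a => X187.AR.actR f a, fun G f => X187.AR.act₁ G f, fun f a b => rfl, fun G f a => rfl,
      fun F G f => rfl⟩,
    ⟨fun a f => X187.AR.actL a f, fun f F => X187.AR.act₂ f F, fun a f b => rfl, fun f F a => rfl,
      fun F G f => rfl⟩,
    ⟨hu, hu.open, hu.open.weaklyOpen⟩,
    ⟨fun h => h1 (X187.AR.UniformlyOpenMul.open h).weaklyOpen,
      fun h => h1 (X187.AR.OpenMul.weaklyOpen h), h1⟩,
    ⟨fun h => h2 (X187.AR.UniformlyOpenMul.open h).weaklyOpen,
      fun h => h2 (X187.AR.OpenMul.weaklyOpen h), h2⟩⟩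

end Pool.Agent.Results.MP_5068ad_an.ArensNotOpen
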